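import Pool.Agent.DIF.Stmts
import Pool.Agent.Helper40_FLX.Cor

/-!
# Squad DIF, row CRG (helper56): the core existence theorem with a general linear part
-/

set_option autoImplicit false

open scoped InnerProductSpace Topology ContDiff Manifold
open MeasureTheory Filter Set

noncomputable section

namespace Pool.Agent.DIF.H56

open Pool.Agent.Helper42_Paneitz Pool.Agent.Helper82_Vir Pool.Agent.FLX Pool.Agent.DIF

/-- the linear map `Mg q` -/
def MgL {q : S4 → ℝ} (hq : Continuous q) : E5 →ₗ[ℝ] E5 where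
  toFun b := Mg q b
  map_add' b b' := by
    have hi : ∀ c : E5, Integrable (fun y : S4 => (q y * ⟪c, (y : E5)⟫_ℝ) • (y : E5)) sig :=
      fun c => H40.int_smul (hq.mul (continuous_const.inner continuous_subtype_val))
    have h1 : ∫ y : S4, (q y * ⟪b + b', (y : E5)⟫_ℝ) • (y : E5) ∂sig =
        (∫ y : S4, (q y * ⟪b, (y : E5)⟫_ℝ) • (y : E5) ∂sig) +
          ∫ y : S4, (q y * ⟪b', (y : E5)⟫_ℝ) • (y : E5) ∂sig := by
      rw [← integral_add (hi b) (hi b')]
      refine integral_congr_ae (Eventually.of_forall fun y => ?_)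
      show (q y * ⟪b + b', (y : E5)⟫_ℝ) • (y : E5) =
        (q y * ⟪b, (y : E5)⟫_ℝ) • (y : E5) + (q y * ⟪b', (y : E5)⟫_ℝ) • (y : E5)
      rw [inner_add_left, mul_add, add_smul]
    unfold Mg
    rw [h1]
    module
  map_smul' c b := by
    have h1 : ∫ y : S4, (q y * ⟪c • b, (y : E5)⟫_ℝ) • (y : E5) ∂sig =
        c • ∫ y : S4, (q y * ⟪b, (y : E5)⟫_ℝ) • (y : E5) ∂sig := by
      rw [← integral_smul]
      refine integral_congr_ae (Eventually.of_forall fun y => ?_)
      show (q y * ⟪c • b, (y : E5)⟫_ℝ) • (y : E5) = c • ((q y * ⟪b, (y : E5)⟫_ℝ) • (y : E5))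
      rw [real_inner_smul_left, smul_smul]
      congr 1
      ring
    unfold Mg
    rw [h1]
    simp only [RingHom.id_apply]
    module

/-- the inverse of `Mg q` -/
theorem exists_inv {q : S4 → ℝ} (hq : Continuous q) {κ : ℝ} (hκ : 0 < κ)
    (h : ∀ b : E5, κ * ‖b‖ ≤ ‖Mg q b‖) : ∃ N : E5 →ₗ[ℝ] E5, (∀ b, N (Mg q b) = b) ∧
      (∀ v, ‖N v‖ ≤ ‖v‖ / κ) ∧ ∀ v, N v = 0 → v = 0 := by
  have hinj : Function.Injective (MgL hq) := by
    rw [← LinearMap.ker_eq_bot, LinearMap.ker_eq_bot']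
    intro b hb
    have h1 := h b
    have h2 : Mg q b = 0 := hb
    rw [h2, norm_zero] at h1
    have h3 : ‖b‖ ≤ 0 := by
      by_contra hc
      rw [not_le] at hc
      have := mul_pos hκ hc
      linarith
    exact norm_le_zero_iff.1 h3
  set T := LinearEquiv.ofInjectiveEndo (MgL hq) hinj with hT
  have hTb : ∀ b, T b = Mg q b := fun b => rfl
  have hMN : ∀ v, Mg q (T.symm v) = v := fun v => by
    rw [← hTb, LinearEquiv.apply_symm_apply]
  refine ⟨T.symm.toLinearMap, fun b => ?_, fun v => ?_, fun v hv => ?_⟩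
  · show T.symm (Mg q b) = b
    rw [← hTb, LinearEquiv.symm_apply_apply]
  · rw [le_div_iff₀ hκ]
    have h1 := h (T.symm v)
    rw [hMN] at h1
    show ‖T.symm v‖ * κ ≤ ‖v‖
    linarith
  · have h1 : T.symm v = 0 := hv
    have h2 := hMN v
    rw [h1] at h2
    have h3 : Mg q 0 = 0 := (MgL hq).map_zero
    rw [← h2, h3]

theorem crg (hker : KerStmt) (hrea : ReaStmt) (hfix : FixStmt) (hxis : XisStmt)
    (hsym : SymStmt) (hl2b : L2bStmt) (hmos : MosStmt) (hmoi : MoiStmt)
    (hnle : NleStmt) (hexq : ExqStmt) : CrgStmt := by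
  intro κ hκ
  obtain ⟨CE, hCE, hexp⟩ := hexq
  obtain ⟨τ₀, CF, hτ₀, hCF, hF⟩ := hfix
  obtain ⟨CN, hCN, hN⟩ := hnle
  set ρ : ℝ := min (1 / 2) (κ / (3 * (CE + 1))) with hρd
  have hρ0 : 0 < ρ := lt_min (by norm_num) (by positivity)
  have hρ2 : ρ ≤ 1 / 2 := min_le_left _ _
  have hρ3 : CE * ρ ≤ κ / 3 := by
    have h1 : ρ ≤ κ / (3 * (CE + 1)) := min_le_right _ _
    rw [le_div_iff₀ (by positivity)] at h1
    nlinarith
  set C₃ : ℝ := CN * ((CF + CF ^ 2) * 9) + 1 with hC₃
  have hC₃p : 0 < C₃ := by positivity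
  set c₀ : ℝ := κ * ρ / 3 with hc₀
  have hc₀p : 0 < c₀ := by positivity
  set e₀ : ℝ := min (τ₀ / 3) (min (1 / (4 * (CF * 3))) (κ * ρ / (3 * C₃))) with he₀
  have he₀p : 0 < e₀ := lt_min (by positivity) (lt_min (by positivity) (by positivity))
  refine ⟨e₀, c₀, he₀p, hc₀p, ?_⟩
  intro e q he hee hqc hqN hq0 hMg
  have he1 : 3 * e ≤ τ₀ := by
    have h1 : e ≤ τ₀ / 3 := hee.trans (min_le_left _ _)
    linarith
  have he2 : CF * (3 * e) ≤ 1 / 4 := by
    have h1 : e ≤ 1 / (4 * (CF * 3)) := hee.trans ((min_le_right _ _).trans (min_le_left _ _))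
    rw [le_div_iff₀ (by positivity)] at h1
    linarith
  have he3 : C₃ * e ≤ κ * ρ / 3 := by
    have h1 : e ≤ κ * ρ / (3 * C₃) := hee.trans ((min_le_right _ _).trans (min_le_right _ _))
    rw [le_div_iff₀ (by positivity)] at h1
    linarith
  obtain ⟨N, hN1, hN2, hN3⟩ := exists_inv hqc (mul_pos hκ he) hMg
  -- the functions on the closed ball
  set S : Set E5 := Metric.closedBall 0 ρ with hS
  have hSn : ∀ b ∈ S, ‖b‖ ≤ ρ := fun b hb => mem_closedBall_zero_iff.1 hb
  have hS1 : ∀ b ∈ S, ‖b‖ < 1 := fun b hb => by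
    have := hSn b hb
    linarith
  have hmobc : ContinuousOn (fun z : E5 × S4 => mob z.1 z.2) (S ×ˢ univ) :=
    hmos.1.mono fun z hz => hS1 z.1 hz.1
  have hmobb : ∀ b ∈ S, Continuous (mob b) := fun b hb => H40.slice_cont mob hmobc hb
  set qb : E5 → S4 → ℝ := fun b x => q (mob b x) with hqb
  have hqbc : ContinuousOn (fun z : E5 × S4 => qb z.1 z.2) (S ×ˢ univ) :=
    hqc.comp_continuousOn hmobc
  have hqb1 : ∀ b ∈ S, Continuous (qb b) := fun b hb => hqc.comp (hmobb b hb)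
  have hqbN : ∀ b ∈ S, N2 (qb b) ≤ 3 * e := by
    intro b hb
    have h1 := hl2b b q (hS1 b hb) hqc
    have h2 : (1 + ‖b‖) / (1 - ‖b‖) ≤ 3 := by
      have h3 := hSn b hb
      rw [div_le_iff₀ (by linarith)]
      linarith
    refine h1.trans ((mul_le_mul_of_nonneg_right h2 (H40.N2_nonneg _)).trans ?_)
    linarith
  obtain ⟨H, hHc, hHb, hHR, hHeq⟩ := hF S qb (3 * e) hqbc (by positivity) he1 hqbN
  set R : ℝ := CF * (3 * e) with hR
  have hR0 : 0 ≤ R := by positivity
  set B : E5 → E5 := fun b => ∫ y : S4, Nn (qb b) (H b) y • (y : E5) ∂sig with hB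
  have hBc : ContinuousOn B S := by
    refine continuousOn_integral_of_compact_support
      (f := fun (b : E5) (y : S4) => Nn (qb b) (H b) y • (y : E5)) isCompact_univ ?_ ?_
    · show ContinuousOn (fun z : E5 × S4 => Nn (qb z.1) (H z.1) z.2 • (z.2 : E5)) (S ×ˢ univ)
      have h1 : Continuous fun z : E5 × S4 => (z.2 : E5) :=
        continuous_subtype_val.comp continuous_snd
      have h2 : ContinuousOn (fun z : E5 × S4 => Real.exp (4 * H z.1 z.2)) (S ×ˢ univ) :=
        Real.continuous_exp.comp_continuousOn (continuousOn_const.mul hHc)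
      have h3 : ContinuousOn (fun z : E5 × S4 =>
        (6 + qb z.1 z.2) * Real.exp (4 * H z.1 z.2) - 6 - 24 * H z.1 z.2) (S ×ˢ univ) :=
        (((continuousOn_const.add hqbc).mul h2).sub continuousOn_const).sub
        (continuousOn_const.mul hHc)
      exact ContinuousOn.smul h3 h1.continuousOn
    · intro b x _ hx
      exact absurd (mem_univ x) hx
  have hBest : ∀ b ∈ S, ‖B b - Mg q b‖ ≤ κ * e * ρ := by
    intro b hb
    have h1 := (hN (qb b) (H b) (H b) R 0 (hqb1 b hb) (hHb b hb) (hHb b hb) hR0 he2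
      (hHR b hb) (hHR b hb) (fun x => by simp)).2.2
    have h2 : CN * (R * N2 (qb b) + R ^ 2) ≤ C₃ * e * e := by
      have h3 : R * N2 (qb b) ≤ R * (3 * e) := mul_le_mul_of_nonneg_left (hqbN b hb) hR0
      have h4 : R * (3 * e) + R ^ 2 = (CF + CF ^ 2) * 9 * e * e := by
        rw [hR]
        ring
      calc CN * (R * N2 (qb b) + R ^ 2) ≤ CN * (R * (3 * e) + R ^ 2) := by gcongr
        _ = CN * ((CF + CF ^ 2) * 9) * e * e := by rw [h4]; ring
        _ ≤ C₃ * e * e := by
          have h5 : CN * ((CF + CF ^ 2) * 9) ≤ C₃ := by rw [hC₃]; linarith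
          gcongr
    have h3 : C₃ * e * e ≤ κ * ρ / 3 * e := mul_le_mul_of_nonneg_right he3 he.le
    have h4 := hexp q b hqc ((hSn b hb).trans hρ2)
    have h5 : CE * ‖b‖ ^ 2 * N2 q ≤ κ * ρ / 3 * e := by
      have h6 : CE * ‖b‖ ^ 2 ≤ CE * ρ ^ 2 := by
        have := hSn b hb
        gcongr
      calc CE * ‖b‖ ^ 2 * N2 q ≤ CE * ρ ^ 2 * e := by
            apply mul_le_mul h6 hqN (H40.N2_nonneg _) (by positivity)
        _ = CE * ρ * (ρ * e) := by ring
        _ ≤ κ / 3 * (ρ * e) := mul_le_mul_of_nonneg_right hρ3 (by positivity)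
        _ = κ * ρ / 3 * e := by ring
    have h7 : B b - Mg q b = (B b - ∫ y : S4, qb b y • (y : E5) ∂sig) +
        ((∫ y : S4, q (mob b y) • (y : E5) ∂sig) - (∫ y : S4, q y • (y : E5) ∂sig) - Mg q b) +
        ∫ y : S4, q y • (y : E5) ∂sig := by
      have : (∫ y : S4, qb b y • (y : E5) ∂sig) = ∫ y : S4, q (mob b y) • (y : E5) ∂sig := rfl
      rw [this]
      abel
    rw [h7]
    refine (norm_add₃_le).trans ?_
    have h8 : c₀ * e = κ * ρ / 3 * e := by rw [hc₀]
    linarith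
  -- Brouwer
  obtain ⟨b, hb, hfb⟩ := Pool.Agent.Common_Brouwer.schauder (K := S)
    (isCompact_closedBall (0 : E5) ρ) (convex_closedBall (0 : E5) ρ)
    ⟨0, by rw [hS, Metric.mem_closedBall, dist_self]; exact hρ0.le⟩
    (f := fun b => b - N (B b))
    (continuousOn_id.sub ((LinearMap.continuous_of_finiteDimensional N).comp_continuousOn hBc))
    (by
      intro b hb
      have h1 : b - N (B b) = -N (B b - Mg q b) := by
        rw [map_sub, hN1]
        abel
      show b - N (B b) ∈ S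
      rw [hS, mem_closedBall_zero_iff, h1, norm_neg]
      calc ‖N (B b - Mg q b)‖ ≤ ‖B b - Mg q b‖ / (κ * e) := hN2 _
        _ ≤ κ * e * ρ / (κ * e) := by
          apply div_le_div_of_nonneg_right (hBest b hb) (by positivity)
        _ = ρ := by
          field_simp)
  have hB0 : B b = 0 := by
    have h2 : b - N (B b) = b := hfb
    exact hN3 _ (sub_eq_self.1 h2)
  have hIE := H40.finish hker hrea hxis hsym (hqb1 b hb) (hHb b hb) (hHeq b hb) hB0
  exact hmoi b (fun x => 6 + q x) (H b) (hS1 b hb) (continuous_const.add hqc) hIE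

end Pool.Agent.DIF.H56
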