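import Pool.Agent.DIF.Stmts

/-!
# Squad DIF, row LIM (helper56): the pointwise limit of the diffeomorphisms
-/

set_option autoImplicit false

open scoped InnerProductSpace Topology ContDiff Manifold
open MeasureTheory Filter Set

noncomputable section

namespace Pool.Agent.DIF.H56

open Pool.Agent.Helper42_Paneitz Pool.Agent.Helper82_Vir Pool.Agent.FLX Pool.Agent.DIF

/-- normalized vectors near a long multiple of `p` -/
theorem norm_lim {p : E5} (hp : ‖p‖ = 1) {v : ℕ → E5} {c : ℕ → ℝ} (h : ∀ k, ‖v k - c k • p‖ ≤ 1)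
    (hc : Tendsto c atTop atTop) : Tendsto (fun k => ‖v k‖⁻¹ • v k) atTop (𝓝 p) := by
  rw [tendsto_iff_norm_sub_tendsto_zero]
  have h1 : Tendsto (fun k => 2 * (c k - 1)⁻¹) atTop (𝓝 0) := by
    have h2 : Tendsto (fun k => c k - 1) atTop atTop := tendsto_atTop_add_const_right _ (-1) hc
    have h3 := (tendsto_inv_atTop_zero.comp h2).const_mul (2 : ℝ)
    rw [mul_zero] at h3
    exact h3
  refine tendsto_of_tendsto_of_tendsto_of_le_of_le' tendsto_const_nhds h1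
    (Eventually.of_forall fun k => norm_nonneg _) ?_
  filter_upwards [hc.eventually_gt_atTop 1] with k hk
  have hcp : ‖c k • p‖ = c k := by
    rw [norm_smul, hp, mul_one, Real.norm_of_nonneg (by linarith)]
  have h4 : |c k - ‖v k‖| ≤ 1 := by
    have h5 := abs_norm_sub_norm_le (c k • p) (v k)
    rw [hcp, norm_sub_rev] at h5
    exact h5.trans (h k)
  have h6 : c k - 1 ≤ ‖v k‖ := by
    have := (abs_le.1 h4).2
    linarith
  have h7 : 0 < ‖v k‖ := by linarith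
  have h8 : ‖v k‖⁻¹ • v k - p = ‖v k‖⁻¹ • ((v k - c k • p) + (c k - ‖v k‖) • p) := by
    rw [smul_add, smul_sub, smul_smul, smul_smul, mul_sub, inv_mul_cancel₀ h7.ne', sub_smul,
      one_smul]
    abel
  rw [h8, norm_smul, Real.norm_of_nonneg (inv_pos.2 h7).le]
  have h9 : ‖(v k - c k • p) + (c k - ‖v k‖) • p‖ ≤ 2 := by
    refine (norm_add_le _ _).trans ?_
    rw [norm_smul, hp, mul_one, Real.norm_eq_abs]
    have := h k
    linarith
  calc ‖v k‖⁻¹ * ‖(v k - c k • p) + (c k - ‖v k‖) • p‖ ≤ ‖v k‖⁻¹ * 2 :=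
        mul_le_mul_of_nonneg_left h9 (inv_pos.2 h7).le
    _ ≤ (c k - 1)⁻¹ * 2 := by
        apply mul_le_mul_of_nonneg_right _ (by norm_num)
        exact inv_anti₀ (by linarith) h6
    _ = 2 * (c k - 1)⁻¹ := mul_comm _ _

theorem perp_le {p : E5} (hp : ‖p‖ = 1) (z : S4) : ‖(z : E5) - ⟪p, (z : E5)⟫_ℝ • p‖ ≤ 1 := by
  have h1 : ‖(z : E5) - ⟪p, (z : E5)⟫_ℝ • p‖ ^ 2 = 1 - ⟪p, (z : E5)⟫_ℝ ^ 2 := by
    rw [norm_sub_sq_real, norm_smul, hp, S4_norm, real_inner_smul_right, real_inner_comm,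
      Real.norm_eq_abs, mul_one, sq_abs]
    ring
  have h2 : ‖(z : E5) - ⟪p, (z : E5)⟫_ℝ • p‖ ^ 2 ≤ 1 ^ 2 := by
    rw [h1]
    nlinarith [sq_nonneg ⟪p, (z : E5)⟫_ℝ]
  exact abs_le_of_sq_le_sq' h2 zero_le_one |>.2

/-- the stretched points tend to `± p` -/
theorem prj_lim (hdpr : DprStmt) {p : E5} (hp : ‖p‖ = 1) {z : ℕ → S4} {w : ℝ}
    (hz : Tendsto (fun k => ⟪p, (z k : E5)⟫_ℝ) atTop (𝓝 w)) :
    (0 < w → Tendsto (fun k : ℕ => (prj p (k + 1) (z k) : E5)) atTop (𝓝 p)) ∧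
    (w < 0 → Tendsto (fun k : ℕ => (prj p (k + 1) (z k) : E5)) atTop (𝓝 (-p))) := by
  have hk : ∀ k : ℕ, (0 : ℝ) < (k : ℝ) + 1 := fun k => by positivity
  have hkt : Tendsto (fun k : ℕ => (k : ℝ) + 1) atTop atTop :=
    tendsto_atTop_add_const_right _ 1 tendsto_natCast_atTop_atTop
  have e1 : ∀ k : ℕ, (prj p (k + 1) (z k) : E5) =
      ‖(z k : E5) + (((k : ℝ) + 1 - 1) * ⟪p, (z k : E5)⟫_ℝ) • p‖⁻¹ •
        ((z k : E5) + (((k : ℝ) + 1 - 1) * ⟪p, (z k : E5)⟫_ℝ) • p) :=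
    fun k => ((hdpr p (k + 1) hp (hk k)).2 (z k)).2
  have e2 : ∀ k : ℕ, ((z k : E5) + (((k : ℝ) + 1 - 1) * ⟪p, (z k : E5)⟫_ℝ) • p) -
      (((k : ℝ) + 1) * ⟪p, (z k : E5)⟫_ℝ) • p = (z k : E5) - ⟪p, (z k : E5)⟫_ℝ • p := by
    intro k
    module
  simp_rw [e1]
  constructor
  · intro hw
    apply norm_lim hp (c := fun k => ((k : ℝ) + 1) * ⟪p, (z k : E5)⟫_ℝ)
    · intro k
      beta_reduce
      rw [e2]
      exact perp_le hp _
    · exact hkt.atTop_mul_pos hw hz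
  · intro hw
    have hp' : ‖-p‖ = 1 := by rw [norm_neg, hp]
    apply norm_lim hp' (c := fun k => -(((k : ℝ) + 1) * ⟪p, (z k : E5)⟫_ℝ))
    · intro k
      beta_reduce
      rw [smul_neg, neg_smul, neg_neg, e2]
      exact perp_le hp _
    · have h1 := hkt.atTop_mul_neg hw hz
      exact tendsto_neg_atBot_atTop.comp h1

theorem norm_b {p : E5} (hp : ‖p‖ = 1) : ‖(9 / 10 : ℝ) • p‖ = 9 / 10 := by
  rw [norm_smul, hp, mul_one]
  norm_num

theorem fix_p {p : E5} (hp : ‖p‖ = 1) : mobE ((9 / 10 : ℝ) • p) p = p ∧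
    mobE ((9 / 10 : ℝ) • p) (-p) = -p := by
  obtain ⟨s, hs⟩ : ∃ s, s = FLX.sq ((9 / 10 : ℝ) • p) := ⟨_, rfl⟩
  have hs0 : 0 ≤ s := by
    rw [hs]
    exact Real.sqrt_nonneg _
  have hs2 : s ^ 2 = 19 / 100 := by
    rw [hs]
    unfold FLX.sq
    rw [norm_b hp, Real.sq_sqrt (by norm_num)]
    norm_num
  have hpp : ⟪p, p⟫_ℝ = 1 := by
    rw [real_inner_self_eq_norm_sq, hp]
    norm_num
  have hin : ⟪(9 / 10 : ℝ) • p, p⟫_ℝ = 9 / 10 := by
    rw [real_inner_smul_left, hpp, mul_one]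
  have hs1 : 1 + s ≠ 0 := by positivity
  have key : (9 / 10) / (1 + s) * (9 / 10) = 1 - s := by
    rw [div_mul_eq_mul_div, div_eq_iff hs1]
    nlinarith
  constructor
  · unfold mobE
    rw [← hs, hin, smul_smul, ← add_smul, smul_smul]
    have h1 : (1 + 9 / 10 : ℝ)⁻¹ * (s + (1 + 9 / 10 / (1 + s)) * (9 / 10)) = 1 := by
      rw [add_mul, key]
      ring
    rw [h1, one_smul]
  · unfold mobE
    rw [← hs, inner_neg_right, hin, smul_smul, smul_neg, ← neg_smul, ← add_smul, smul_smul]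
    have h1 : (1 + -(9 / 10) : ℝ)⁻¹ * (-s + (1 + -(9 / 10) / (1 + s)) * (9 / 10)) = -1 := by
      rw [add_mul, neg_div, neg_mul, key]
      ring
    rw [h1, neg_smul, one_smul]

theorem lim (hmoa : MoaStmt) (hmos : MosStmt) (hdpr : DprStmt) (hdrs : DrsStmt) : LimStmt := by
  intro p q n hp hq hn hpq hpn hqn P N hP hN x hnx hx1 hx2
  have hb : ‖(9 / 10 : ℝ) • p‖ < 1 := by
    rw [norm_b hp]
    norm_num
  have hb' : ‖-((9 / 10 : ℝ) • p)‖ < 1 := by
    rwa [norm_neg]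
  -- the rotated points
  obtain ⟨t, ht, htA, htl⟩ : ∃ t : ℝ, Tendsto (fun k : ℕ => ⟪p, (rsh p q n k x : E5)⟫_ℝ) atTop (𝓝 t) ∧
      (x ∈ AA p n ↔ 9 / 10 < t) ∧ (|t| ≤ 1 ∧ t ≠ 9 / 10) := by
    have e1 : ∀ k : ℕ, ⟪p, (rsh p q n k x : E5)⟫_ℝ =
        Real.cos (ang k ⟪n, (x : E5)⟫_ℝ) * ⟪p, (x : E5)⟫_ℝ -
          Real.sin (ang k ⟪n, (x : E5)⟫_ℝ) * ⟪q, (x : E5)⟫_ℝ := by
      intro k
      rw [(hdrs p q n k hp hq hpq hpn hqn).2 x, inner_rot_left hp hpq]
    have e2 : |⟪p, (x : E5)⟫_ℝ| ≤ 1 := by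
      have := abs_real_inner_le_norm p (x : E5)
      rwa [hp, S4_norm, mul_one] at this
    simp_rw [e1]
    rcases lt_or_gt_of_ne hnx with hlt | hgt
    · refine ⟨-⟪p, (x : E5)⟫_ℝ, ?_, ?_, ?_, ?_⟩
      · have h1 : Tendsto (fun k : ℕ => (k : ℝ) * ⟪n, (x : E5)⟫_ℝ) atTop atBot :=
          tendsto_natCast_atTop_atTop.atTop_mul_const_of_neg hlt
        have h2 : Tendsto (fun k : ℕ => ang k ⟪n, (x : E5)⟫_ℝ) atTop (𝓝 Real.pi) := by
          have h3 := (Real.tendsto_arctan_atBot.mono_right nhdsWithin_le_nhds).comp h1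
          have h4 := h3.const_sub (Real.pi / 2)
          have h5 : Real.pi / 2 - -(Real.pi / 2) = Real.pi := by ring
          rw [h5] at h4
          exact h4
        have h6 := ((Real.continuous_cos.tendsto _).comp h2).mul_const ⟪p, (x : E5)⟫_ℝ
        have h7 := ((Real.continuous_sin.tendsto _).comp h2).mul_const ⟪q, (x : E5)⟫_ℝ
        have h8 := h6.sub h7
        rw [Real.cos_pi, Real.sin_pi, neg_one_mul, zero_mul, sub_zero] at h8
        exact h8
      · unfold AA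
        rw [Set.mem_setOf_eq]
        constructor
        · rintro (h | h)
          · linarith [h.1]
          · linarith [h.2]
        · intro h
          exact Or.inr ⟨hlt, by linarith⟩
      · rwa [abs_neg]
      · intro h
        exact hx2 (by linarith)
    · refine ⟨⟪p, (x : E5)⟫_ℝ, ?_, ?_, e2, hx1⟩
      · have h1 : Tendsto (fun k : ℕ => (k : ℝ) * ⟪n, (x : E5)⟫_ℝ) atTop atTop :=
          tendsto_natCast_atTop_atTop.atTop_mul_const hgt
        have h2 : Tendsto (fun k : ℕ => ang k ⟪n, (x : E5)⟫_ℝ) atTop (𝓝 0) := by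
          have h3 := (Real.tendsto_arctan_atTop.mono_right nhdsWithin_le_nhds).comp h1
          have h4 := h3.const_sub (Real.pi / 2)
          rw [sub_self] at h4
          exact h4
        have h6 := ((Real.continuous_cos.tendsto _).comp h2).mul_const ⟪p, (x : E5)⟫_ℝ
        have h7 := ((Real.continuous_sin.tendsto _).comp h2).mul_const ⟪q, (x : E5)⟫_ℝ
        have h8 := h6.sub h7
        rw [Real.cos_zero, Real.sin_zero, one_mul, zero_mul, sub_zero] at h8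
        exact h8
      · unfold AA
        rw [Set.mem_setOf_eq]
        constructor
        · rintro (h | h)
          · exact h.2
          · linarith [h.1]
        · intro h
          exact Or.inl ⟨hgt, h⟩
  -- after the first Moebius map
  have ht1 : 0 < 1 - 9 / 10 * t := by
    have := (abs_le.1 htl.1).2
    linarith
  have hw : Tendsto (fun k : ℕ => ⟪p, (mob (-((9 / 10 : ℝ) • p)) (rsh p q n k x) : E5)⟫_ℝ) atTop
      (𝓝 (((19 / 100) / (1 - 9 / 10 * t) - 1) / (9 / 10))) := by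
    have e1 : ∀ y : S4, ⟪p, (mob (-((9 / 10 : ℝ) • p)) y : E5)⟫_ℝ =
        ((19 / 100) / (1 - 9 / 10 * ⟪p, (y : E5)⟫_ℝ) - 1) / (9 / 10) := by
      intro y
      have h1 := (hmoa _ hb').1 y
      have h2 := (hmoa _ hb').2.2.2.2.1 y
      rw [inner_neg_left, real_inner_smul_left] at h1 h2
      rw [inner_neg_left, real_inner_smul_left, norm_neg, norm_b hp] at h2
      have h3 : 0 < 1 - 9 / 10 * ⟪p, (y : E5)⟫_ℝ := by linarith
      rw [eq_div_iff (by norm_num), eq_sub_iff_add_eq, eq_div_iff h3.ne']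
      nlinarith
    simp_rw [e1]
    have h1 : Tendsto (fun k : ℕ => 1 - 9 / 10 * ⟪p, (rsh p q n k x : E5)⟫_ℝ) atTop
        (𝓝 (1 - 9 / 10 * t)) := (ht.const_mul (9 / 10)).const_sub 1
    exact (((tendsto_const_nhds (x := (19 / 100 : ℝ))).div h1 ht1.ne').sub_const 1).div_const _
  have hprj := prj_lim hdpr hp hw
  have hmc : Continuous (mob ((9 / 10 : ℝ) • p)) := by
    have h1 : Continuous fun x : S4 => (((9 / 10 : ℝ) • p, x) : E5 × S4) := by fun_prop
    have h2 : ∀ x : S4, (((9 / 10 : ℝ) • p, x) : E5 × S4) ∈ {z : E5 × S4 | ‖z.1‖ < 1} := fun x => by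
      rw [Set.mem_setOf_eq]
      exact hb
    have h3 := hmos.1.comp_continuous h1 h2
    exact h3
  have hmP : mob ((9 / 10 : ℝ) • p) P = P := by
    apply Subtype.ext
    rw [(hmoa _ hb).2.1, hP, (fix_p hp).1]
  have hmN : mob ((9 / 10 : ℝ) • p) N = N := by
    apply Subtype.ext
    rw [(hmoa _ hb).2.1, hN, (fix_p hp).2]
  constructor
  · intro hx
    have h1 : 9 / 10 < t := htA.1 hx
    have h2 : 0 < ((19 / 100) / (1 - 9 / 10 * t) - 1) / (9 / 10) := by
      apply div_pos _ (by norm_num)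
      rw [sub_pos, lt_div_iff₀ ht1]
      linarith
    have h3 : Tendsto (fun k : ℕ => prj p (k + 1) (mob (-((9 / 10 : ℝ) • p)) (rsh p q n k x)))
        atTop (𝓝 P) := by
      rw [tendsto_subtype_rng, hP]
      exact hprj.1 h2
    have h4 := (hmc.tendsto P).comp h3
    rw [hmP] at h4
    exact h4
  · intro hx
    have h1 : t < 9 / 10 := by
      have h0 : ¬ 9 / 10 < t := fun h => hx (htA.2 h)
      exact lt_of_le_of_ne (not_lt.1 h0) htl.2
    have h2 : ((19 / 100) / (1 - 9 / 10 * t) - 1) / (9 / 10) < 0 := by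
      apply div_neg_of_neg_of_pos _ (by norm_num)
      rw [sub_neg, div_lt_iff₀ ht1]
      linarith
    have h3 : Tendsto (fun k : ℕ => prj p (k + 1) (mob (-((9 / 10 : ℝ) • p)) (rsh p q n k x)))
        atTop (𝓝 N) := by
      rw [tendsto_subtype_rng, hN]
      exact hprj.2 h2
    have h4 := (hmc.tendsto N).comp h3
    rw [hmN] at h4
    exact h4

end Pool.Agent.DIF.H56
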